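import Mathlib
import Pool.Agent.Helper35.HSF.StF

/-!
Project HSF, module FII: integral identities.
-/

set_option autoImplicit false

namespace Helper36.HSF

open Helper35.HSF Helper35.MS Helper35.PI Helper35.PI2 Helper32.CL
open scoped ContDiff Manifold Topology ENNReal BigOperators
open MeasureTheory Set Filter

theorem dvg_cst {n N : ℕ} {M : Type} [TopologicalSpace M] [ChartedSpace (EE n) M]
    (F : M → ℝ → EE N) (b : EE N) (q : M) (t : ℝ) :
    dvg (n := n) F (fun _ => b) q t = 0 := by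
  unfold dvg
  simp

theorem cst_cont {M : Type} [TopologicalSpace M] {V : Type} [TopologicalSpace V] {J : Set ℝ}
    {g : M → ℝ → V} (h : CSTJ J g) {t : ℝ} (ht : t ∈ J) : Continuous (fun q => g q t) := by
  have h1 : Continuous (fun q : M => ((q, t) : M × ℝ)) := by fun_prop
  exact ContinuousOn.comp_continuous (f := fun q : M => ((q, t) : M × ℝ)) h h1
    (fun q => ⟨mem_univ _, ht⟩)

theorem hFII (hEVF : StEVF) (hFVJ : StFVJ) (hTDJ : StTDJ) (hARE : StARE) (hPRJ : StPRJ)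
    (hSMR : StSMR) (hSMF : StSMF) (hMUJ : StMUJ) : StFII := by
  intro n hn M _ _ _ _ _ _ _ _ J F ν c χ hF hPU t ht b
  have hmcf := hF.mcf
  have himm : IsImmJ (n := n) J F := hmcf.toIsImmJ
  have hSJ : SetupJ n J F c χ := ⟨himm, hPU⟩
  have hSF : SetupF n J F c χ := ⟨hmcf, hPU⟩
  have hr : 0 < rr n t := hF.r0 t ht
  obtain ⟨hsH, hsν, hE⟩ := hEVF n hn M J F ν hF
  have hsw := hsν b
  obtain ⟨-, -, -, -, -, hsF, -, hse⟩ := hSMF n (n + 2) M J F himm
  obtain ⟨-, hsh2⟩ := hse hF.r0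
  have hsu := hsF b
  obtain ⟨s, -, hM⟩ := hMUJ n (n + 2) M J F c χ hSJ
  have hInt : ∀ g : M → ℝ, Continuous g → Integrable g (muM n F c χ t) :=
    fun g hg => ((hM t ht).2.2 g hg).1
  have hfin : muM n F c χ t univ < ⊤ := (hM t ht).1
  obtain ⟨hRw1, hRw2, hRw3, hRw4, hRw5, hRw6, hRw7, hRw8⟩ := hSMR n (n + 2) M J F himm _ hsw
  obtain ⟨hRH1, hRH2, -, -, -, -, hRH7, -⟩ := hSMR n (n + 2) M J F himm _ hsH
  obtain ⟨-, hRu2, -, -, -, -, -, -⟩ := hSMR n (n + 2) M J F himm _ hsu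
  obtain ⟨-, hRh2, -, -, -, -, -, -⟩ := hSMR n (n + 2) M J F himm _ hsh2
  have cw : Continuous (fun q => (inner ℝ (ν q t) b : ℝ)) := cst_cont hRw2 ht
  have cu : Continuous (fun q => (inner ℝ (F q t) b : ℝ)) := cst_cont hRu2 ht
  have cH : Continuous (fun q => Hs n F ν q t) := cst_cont hRH2 ht
  have ch : Continuous (fun q => h2N n F q t) := cst_cont hRh2 ht
  have cd : Continuous (fun q => deriv (fun s => (inner ℝ (ν q s) b : ℝ)) t) := cst_cont hRw3 ht
  have cl : Continuous (fun q => lapN n F (fun q s => (inner ℝ (ν q s) b : ℝ)) q t) :=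
    cst_cont hRw5 ht
  have cg : Continuous (fun q => (inner ℝ (gdM n F t (fun q => Hs n F ν q t) q) b : ℝ)) :=
    (cst_cont hRH7 ht).inner continuous_const
  -- the inner product of the mean curvature vector with `b`
  have hHb : ∀ q, (inner ℝ (HH (n := n) F q t) b : ℝ)
      = Hs n F ν q t * inner ℝ (ν q t) b - n / rr n t * inner ℝ (F q t) b := by
    intro q
    rw [(hE q t ht).1, inner_sub_left, real_inner_smul_left, real_inner_smul_left]
  have hHn : ∀ q, ‖HH (n := n) F q t‖ ^ 2 = Hs n F ν q t ^ 2 + n ^ 2 / rr n t := by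
    intro q
    have h1 := (hE q t ht).2.1
    unfold eN at h1
    linarith
  -- integrable pieces
  have iHw : Integrable (fun q => Hs n F ν q t * (inner ℝ (ν q t) b : ℝ)) (muM n F c χ t) :=
    hInt _ (cH.mul cw)
  have iu := hInt _ cu
  have iw := hInt _ cw
  have iHu : Integrable (fun q => Hs n F ν q t * (inner ℝ (F q t) b : ℝ)) (muM n F c χ t) :=
    hInt _ (cH.mul cu)
  have iHHw : Integrable (fun q => Hs n F ν q t ^ 2 * (inner ℝ (ν q t) b : ℝ))
      (muM n F c χ t) := hInt _ ((cH.pow 2).mul cw)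
  have ihw : Integrable (fun q => h2N n F q t * (inner ℝ (ν q t) b : ℝ)) (muM n F c χ t) :=
    hInt _ (ch.mul cw)
  have ig := hInt _ cg
  have id' := hInt _ cd
  have il := hInt _ cl
  have iH2 : Integrable (fun q => Hs n F ν q t ^ 2) (muM n F c χ t) := hInt _ (cH.pow 2)
  have k1 : Integrable (fun q => Hs n F ν q t ^ 2 * (inner ℝ (ν q t) b : ℝ)
      - n / rr n t * (Hs n F ν q t * (inner ℝ (F q t) b : ℝ))) (muM n F c χ t) :=
    iHHw.sub (iHu.const_mul _)
  have k2 : Integrable (fun q => h2N n F q t * (inner ℝ (ν q t) b : ℝ)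
      - 2 / rr n t * (Hs n F ν q t * (inner ℝ (F q t) b : ℝ))) (muM n F c χ t) :=
    ihw.sub (iHu.const_mul _)
  have k3 : Integrable (fun q => -(inner ℝ (gdM n F t (fun q => Hs n F ν q t) q) b : ℝ))
      (muM n F c χ t) := ig.neg
  have k4 : Integrable (fun q => Hs n F ν q t ^ 2 * (inner ℝ (ν q t) b : ℝ)
      + n ^ 2 / rr n t * (inner ℝ (ν q t) b : ℝ)) (muM n F c χ t) :=
    iHHw.add (iw.const_mul _)
  -- (1)
  have e1 : ∫ q, Hs n F ν q t * (inner ℝ (ν q t) b : ℝ) ∂muM n F c χ t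
      = n / rr n t * ∫ q, (inner ℝ (F q t) b : ℝ) ∂muM n F c χ t := by
    have h1 := (hFVJ n (n + 2) M J F c χ hSJ t ht (fun _ => b) contMDiff_const).2
    have h2 : ∫ q, (dvg (n := n) F (fun _ => b) q t + inner ℝ (HH (n := n) F q t) b)
        ∂muM n F c χ t = ∫ q, (Hs n F ν q t * inner ℝ (ν q t) b
          - n / rr n t * inner ℝ (F q t) b) ∂muM n F c χ t := by
      refine integral_congr_ae (Eventually.of_forall fun q => ?_)
      simp only [dvg_cst, hHb, zero_add]
    rw [h2, integral_sub iHw (iu.const_mul _), integral_const_mul] at h1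
    linarith
  -- (2)
  have e2 : ∫ q, (inner ℝ (gdM n F t (fun q => Hs n F ν q t) q) b : ℝ) ∂muM n F c χ t
      = -(∫ q, Hs n F ν q t ^ 2 * (inner ℝ (ν q t) b : ℝ) ∂muM n F c χ t)
        + n / rr n t * ∫ q, Hs n F ν q t * (inner ℝ (F q t) b : ℝ) ∂muM n F c χ t := by
    have hX : ContMDiff (𝓡 n) 𝓘(ℝ, EE (n + 2)) 1 (fun q => Hs n F ν q t • b) :=
      ((hRH1 t ht).1.of_le (by norm_cast)).smul contMDiff_const
    have h1 := (hFVJ n (n + 2) M J F c χ hSJ t ht _ hX).2
    have h2 : ∫ q, (dvg (n := n) F (fun q => Hs n F ν q t • b) q t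
        + inner ℝ (HH (n := n) F q t) (Hs n F ν q t • b)) ∂muM n F c χ t
        = ∫ q, (inner ℝ (gdM n F t (fun q => Hs n F ν q t) q) b
          + (Hs n F ν q t ^ 2 * (inner ℝ (ν q t) b : ℝ)
            - n / rr n t * (Hs n F ν q t * (inner ℝ (F q t) b : ℝ)))) ∂muM n F c χ t := by
      refine integral_congr_ae (Eventually.of_forall fun q => ?_)
      have h3 := (hPRJ n (n + 2) M J F himm t ht).1 (fun q => Hs n F ν q t)
        ((hRH1 t ht).1.of_le (by norm_cast)) (fun _ => b) contMDiff_const q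
      simp only [dvg_cst, mul_zero, zero_add] at h3
      simp only [h3, real_inner_smul_right, hHb]
      ring
    rw [h2, integral_add ig k1, integral_sub iHHw (iHu.const_mul _),
      integral_const_mul] at h1
    linarith
  -- (3)
  have e3 : ∫ q, lapN n F (fun q s => (inner ℝ (ν q s) b : ℝ)) q t ∂muM n F c χ t = 0 := by
    have h1 := (hFVJ n (n + 2) M J F c χ hSJ t ht _
      ((hRw1 t ht).2.of_le (by norm_cast))).2
    rw [← h1]
    refine integral_congr_ae (Eventually.of_forall fun q => ?_)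
    simp only [(hRw8 t ht q).2, add_zero]
    rfl
  have e4 : ∫ q, deriv (fun s => (inner ℝ (ν q s) b : ℝ)) t ∂muM n F c χ t
      = ∫ q, h2N n F q t * (inner ℝ (ν q t) b : ℝ) ∂muM n F c χ t
        - 2 / rr n t * ∫ q, Hs n F ν q t * (inner ℝ (F q t) b : ℝ) ∂muM n F c χ t := by
    have h2 : ∫ q, deriv (fun s => (inner ℝ (ν q s) b : ℝ)) t ∂muM n F c χ t
        = ∫ q, ((h2N n F q t * (inner ℝ (ν q t) b : ℝ)
          - 2 / rr n t * (Hs n F ν q t * (inner ℝ (F q t) b : ℝ)))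
          + lapN n F (fun q s => (inner ℝ (ν q s) b : ℝ)) q t) ∂muM n F c χ t := by
      refine integral_congr_ae (Eventually.of_forall fun q => ?_)
      have h3 := ((hE q t ht).2.2.2.2.2.2 b).2.1
      unfold htN at h3
      simp only
      have h4 : 2 * Hs n F ν q t / rr n t * (inner ℝ (F q t) b : ℝ)
        = 2 / rr n t * (Hs n F ν q t * (inner ℝ (F q t) b : ℝ)) := by ring
      linarith
    rw [h2, integral_add k2 il, integral_sub ihw (iHu.const_mul _),
      integral_const_mul, e3, add_zero]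
  have e5 : ∫ q, deriv (fun s => (inner ℝ (ν q s) b : ℝ)) t ∂muM n F c χ t
      = -(∫ q, (inner ℝ (gdM n F t (fun q => Hs n F ν q t) q) b : ℝ) ∂muM n F c χ t)
        - 1 / rr n t * ∫ q, Hs n F ν q t * (inner ℝ (F q t) b : ℝ) ∂muM n F c χ t := by
    have h2 : ∫ q, deriv (fun s => (inner ℝ (ν q s) b : ℝ)) t ∂muM n F c χ t
        = ∫ q, (-(inner ℝ (gdM n F t (fun q => Hs n F ν q t) q) b : ℝ)
          - 1 / rr n t * (Hs n F ν q t * (inner ℝ (F q t) b : ℝ))) ∂muM n F c χ t := by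
      refine integral_congr_ae (Eventually.of_forall fun q => ?_)
      have h3 := ((hE q t ht).2.2.2.2.2.2 b).2.2.1
      simp only
      rw [h3]
      ring
    rw [h2, integral_sub k3 (iHu.const_mul _), integral_neg, integral_const_mul]
  have hrne : rr n t ≠ 0 := ne_of_gt hr
  refine ⟨e1, ?_, ?_, ?_, ?_⟩
  · have h2 : ∫ q, (Hs n F ν q t ^ 2 - h2N n F q t) * (inner ℝ (ν q t) b : ℝ) ∂muM n F c χ t
        = ∫ q, Hs n F ν q t ^ 2 * (inner ℝ (ν q t) b : ℝ) ∂muM n F c χ t
          - ∫ q, h2N n F q t * (inner ℝ (ν q t) b : ℝ) ∂muM n F c χ t := by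
      rw [← integral_sub iHHw ihw]
      refine integral_congr_ae (Eventually.of_forall fun q => ?_)
      simp only
      ring
    rw [h2]
    have h5 : ∫ q, h2N n F q t * (inner ℝ (ν q t) b : ℝ) ∂muM n F c χ t
        - 2 / rr n t * ∫ q, Hs n F ν q t * (inner ℝ (F q t) b : ℝ) ∂muM n F c χ t
        = ∫ q, Hs n F ν q t ^ 2 * (inner ℝ (ν q t) b : ℝ) ∂muM n F c χ t
        - n / rr n t * ∫ q, Hs n F ν q t * (inner ℝ (F q t) b : ℝ) ∂muM n F c χ t
        - 1 / rr n t * ∫ q, Hs n F ν q t * (inner ℝ (F q t) b : ℝ) ∂muM n F c χ t := by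
      rw [← e4, e5, e2]
      ring
    have h6 : ((n : ℝ) - 1) / rr n t
        * ∫ q, Hs n F ν q t * (inner ℝ (F q t) b : ℝ) ∂muM n F c χ t
        = n / rr n t * ∫ q, Hs n F ν q t * (inner ℝ (F q t) b : ℝ) ∂muM n F c χ t
        + 1 / rr n t * ∫ q, Hs n F ν q t * (inner ℝ (F q t) b : ℝ) ∂muM n F c χ t
        - 2 / rr n t * ∫ q, Hs n F ν q t * (inner ℝ (F q t) b : ℝ) ∂muM n F c χ t := by
      ring
    linarith
  · have h1 := (hTDJ n (n + 2) M J F c χ hSF).2 (fun q s => (inner ℝ (ν q s) b : ℝ))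
      (fun q t => deriv (fun s => (inner ℝ (ν q s) b : ℝ)) t) hRw2 hRw3 hRw4 t ht
    have h2 : ∫ q, (deriv (fun s => (inner ℝ (ν q s) b : ℝ)) t
        - ‖HH (n := n) F q t‖ ^ 2 * (inner ℝ (ν q t) b : ℝ)) ∂muM n F c χ t
        = -((n + 1) / rr n t * ∫ q, Hs n F ν q t * (inner ℝ (F q t) b : ℝ) ∂muM n F c χ t)
        - n ^ 2 / rr n t * wiN n F ν c χ b t := by
      have h3 : ∫ q, (deriv (fun s => (inner ℝ (ν q s) b : ℝ)) t
        - ‖HH (n := n) F q t‖ ^ 2 * (inner ℝ (ν q t) b : ℝ)) ∂muM n F c χ t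
        = ∫ q, (deriv (fun s => (inner ℝ (ν q s) b : ℝ)) t
          - (Hs n F ν q t ^ 2 * (inner ℝ (ν q t) b : ℝ)
            + n ^ 2 / rr n t * (inner ℝ (ν q t) b : ℝ))) ∂muM n F c χ t := by
        refine integral_congr_ae (Eventually.of_forall fun q => ?_)
        simp only [hHn]
        ring
      rw [h3, integral_sub id' k4, integral_add iHHw (iw.const_mul _),
        integral_const_mul, e5, e2]
      unfold wiN
      ring
    rw [h2] at h1
    exact h1
  · have h1 := (hARE n (n + 2) M J F c χ hSF t ht).2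
    have h2 : -∫ q, ‖HH (n := n) F q t‖ ^ 2 ∂muM n F c χ t
        = -(∫ q, Hs n F ν q t ^ 2 ∂muM n F c χ t) - n ^ 2 / rr n t * arN n F c χ t := by
      have h3 : ∫ q, ‖HH (n := n) F q t‖ ^ 2 ∂muM n F c χ t
          = ∫ q, (Hs n F ν q t ^ 2 + n ^ 2 / rr n t) ∂muM n F c χ t := by
        refine integral_congr_ae (Eventually.of_forall fun q => ?_)
        simp only [hHn]
      rw [h3, integral_add iH2 (hInt _ continuous_const), integral_const, smul_eq_mul]
      unfold arN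
      ring
    rw [h2] at h1
    exact h1
  · exact (hARE n (n + 2) M J F c χ hSF t ht).1

end Helper36.HSF
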